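import Mathlib

set_option autoImplicit false

namespace Pool.Agent.Results.MP_c48ca6_an.Sharp

open scoped RealInnerProductSpace

variable {H : Type} [NormedAddCommGroup H] [InnerProductSpace ℝ H]

/-- The normal cone `N_A(x)`. -/
def normalCone (A : Set H) (x : H) : Set H := {v | ∀ a ∈ A, ⟪a - x, v⟫ ≤ 0}

/-- `A` is `α`-sharp with respect to `u`. -/
def IsSharp (A : Set H) (α : ℝ) (u : H) : Prop :=
  ∀ x ∈ A, u ∉ normalCone A x → α ≤ Metric.infDist u (normalCone A x)

/-- `A` is cut out by finitely many (at least one) closed linear inequalities. -/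
def IsPolyhedral (A : Set H) : Prop :=
  ∃ (m : ℕ) (a : Fin m → H) (b : Fin m → ℝ), 1 ≤ m ∧ A = {x | ∀ j, ⟪a j, x⟫ ≤ b j}

lemma poly_of_fin {ι : Type} [Fintype ι] (a : ι → H) (b : ι → ℝ) :
    IsPolyhedral {x | ∀ j, ⟪a j, x⟫ ≤ b j} := by
  let e := Fintype.equivFin (Option ι)
  refine ⟨Fintype.card (Option ι), fun j => (e.symm j).elim 0 a, fun j => (e.symm j).elim 0 b,
    by simp, ?_⟩
  ext x
  simp only [Set.mem_ofPred_eq]
  constructor
  · intro h j
    rcases e.symm j with _ | i
    · simp
    · simpa using h i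
  · intro h i
    simpa using h (e (some i))

lemma fin_case [CompleteSpace H] [FiniteDimensional ℝ H] (A : Set H) (hne : A.Nonempty)
    (hc : IsClosed A) (hv : Convex ℝ A)
    (h : ∀ u : H, ‖u‖ = 1 → ∃ α > 0, IsSharp A α u) : IsPolyhedral A := by
  classical
  choose! α hα hs using h
  obtain ⟨t, ht, hcov⟩ := (isCompact_sphere (0 : H) 1).elim_nhds_subcover
    (fun u => Metric.ball u (min (α u) 1))
    (fun u hu => Metric.ball_mem_nhds u (lt_min (hα u (by simpa using hu)) one_pos))
  let P : H → Prop := fun u => ∃ x ∈ A, u ∈ normalCone A x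
  let s := t.filter P
  have hp : ∀ u : s, ∃ x ∈ A, (u : H) ∈ normalCone A x := fun u => (Finset.mem_filter.mp u.2).2
  choose p hpA hpN using hp
  have : A = {x | ∀ j : s, ⟪(j : H), x⟫ ≤ ⟪(j : H), p j⟫} := by
    ext y
    simp only [Set.mem_ofPred_eq]
    constructor
    · intro hy j
      have := hpN j y hy
      rw [inner_sub_left] at this
      rw [real_inner_comm y, real_inner_comm (p j)]
      linarith
    · intro hy
      by_contra hyA
      obtain ⟨x, hx, hmin⟩ := exists_norm_eq_iInf_of_complete_convex hne hc.isComplete hv y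
      rw [norm_eq_iInf_iff_real_inner_le_zero hv hx] at hmin
      have hne0 : y - x ≠ 0 := fun h0 => hyA (by rw [sub_eq_zero.mp h0]; exact hx)
      have hpos : 0 < ‖y - x‖ := norm_pos_iff.mpr hne0
      set v : H := ‖y - x‖⁻¹ • (y - x) with hvdef
      have hv1 : ‖v‖ = 1 := by rw [hvdef, norm_smul]; simp [hpos.ne']
      have hvN : v ∈ normalCone A x := by
        intro a ha
        rw [hvdef, real_inner_smul_right, real_inner_comm]
        exact mul_nonpos_of_nonneg_of_nonpos (by positivity) (hmin a ha)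
      have := hcov (show v ∈ Metric.sphere (0 : H) 1 by simpa using hv1)
      simp only [Set.mem_iUnion, Metric.mem_ball, lt_min_iff] at this
      obtain ⟨u, hu, hd1, hd2⟩ := this
      have hu1 : ‖u‖ = 1 := by simpa using ht u hu
      have huN : u ∈ normalCone A x := by
        by_contra hn
        have h1 := hs u hu1 x hx hn
        have h2 := Metric.infDist_le_dist_of_mem (x := u) hvN
        rw [dist_comm] at hd1
        linarith
      let j : s := ⟨u, Finset.mem_filter.mpr ⟨hu, x, hx, huN⟩⟩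
      have h1 : ⟪u, y⟫ ≤ ⟪u, p j⟫ := hy j
      have h2 := huN (p j) (hpA j)
      rw [inner_sub_left, real_inner_comm u, real_inner_comm u] at h2
      have h3 : 0 < ⟪u, v⟫ := by
        have := norm_sub_sq_real v u
        rw [dist_eq_norm] at hd2
        rw [hu1, hv1, real_inner_comm] at this
        nlinarith [norm_nonneg (v - u)]
      rw [hvdef, real_inner_smul_right, inner_sub_right] at h3
      have := (mul_pos_iff_of_pos_left (inv_pos.mpr hpos)).mp h3
      linarith
  rw [this]
  exact poly_of_fin _ _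

lemma inf_case (h : IsPolyhedral ({0} : Set H)) : FiniteDimensional ℝ H := by
  obtain ⟨m, a, b, -, h⟩ := h
  have hb : ∀ j, 0 ≤ b j := fun j => by
    have : (0 : H) ∈ {x | ∀ j, ⟪a j, x⟫ ≤ b j} := h ▸ rfl
    simpa using this j
  let L : H →ₗ[ℝ] (Fin m → ℝ) := LinearMap.pi fun j => (innerSL ℝ (a j)).toLinearMap
  refine FiniteDimensional.of_injective L ?_
  rw [injective_iff_map_eq_zero]
  intro x hx
  have : x ∈ {x | ∀ j, ⟪a j, x⟫ ≤ b j} := fun j => by
    have : ⟪a j, x⟫ = 0 := congrFun hx j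
    rw [this]; exact hb j
  rw [← h] at this
  exact this

theorem result (H : Type) [NormedAddCommGroup H] [InnerProductSpace ℝ H] [CompleteSpace H] :
    List.TFAE [FiniteDimensional ℝ H,
      ∀ A : Set H, A.Nonempty → IsClosed A → Convex ℝ A →
        (∃ α > 0, ∀ u : H, ‖u‖ = 1 → IsSharp A α u) → IsPolyhedral A,
      ∀ A : Set H, A.Nonempty → IsClosed A → Convex ℝ A →
        (∀ u : H, ‖u‖ = 1 → ∃ α > 0, IsSharp A α u) → IsPolyhedral A] := by
  tfae_have 1 → 3 := fun _ A h1 h2 h3 h4 => fin_case A h1 h2 h3 h4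
  tfae_have 3 → 2 := fun h A h1 h2 h3 ⟨α, hα, h4⟩ => h A h1 h2 h3 fun u hu => ⟨α, hα, h4 u hu⟩
  tfae_have 2 → 1 := fun h => inf_case (h {0} (by simp) isClosed_singleton (convex_singleton _)
    ⟨1, one_pos, fun u _ x hx hn => (hn fun a ha => by
      rw [Set.mem_singleton_iff.mp hx, Set.mem_singleton_iff.mp ha]; simp).elim⟩)
  tfae_finish

end Pool.Agent.Results.MP_c48ca6_an.Sharp
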